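import Pool.Agent.H27.HB.TD
import Pool.Agent.H33.HQ.TR

/-!
# MO3: convergence of mollifications
-/

set_option autoImplicit false

namespace Pool.Agent.H10.HB
open MeasureTheory Set Filter Topology Pool.Agent.H80.HS Pool.Agent.H93.HQ Pool.Agent.H27.HB
open scoped ContDiff ENNReal

/-! ### measure preserving maps -/

lemma mo_pres {n : ℕ} (T : H n → H n) (hT : Continuous T)
    (h : ∀ f : H n → ℝ≥0∞, Measurable f → ∫⁻ x, f (T x) = ∫⁻ x, f x) :
    MeasurePreserving T (volume : Measure (H n)) volume := by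
  refine ⟨hT.measurable, ?_⟩
  ext s hs
  rw [Measure.map_apply hT.measurable hs, ← lintegral_indicator_one hs,
    ← lintegral_indicator_one (hT.measurable hs)]
  exact h (s.indicator 1) (measurable_one.indicator hs)

lemma mo_left {n : ℕ} (y : H n) :
    MeasurePreserving (mul y : H n → H n) (volume : Measure (H n)) volume :=
  mo_pres _ (continuous_mul y) fun f hf => (Pool.Agent.H33.HQ.pf_TR n f y hf).1

lemma mo_cont_right {n : ℕ} (z : H n) : Continuous (fun y : H n => mul y z) :=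
  continuous_mul'.comp (continuous_id.prodMk continuous_const)

lemma mo_right {n : ℕ} (z : H n) :
    MeasurePreserving (fun y : H n => mul y z) (volume : Measure (H n)) volume :=
  mo_pres _ (mo_cont_right z) fun f hf => (Pool.Agent.H33.HQ.pf_TR n f z hf).2

lemma mo_neg {n : ℕ} :
    MeasurePreserving (fun y : H n => -y) (volume : Measure (H n)) volume := by
  refine mo_pres _ continuous_neg fun f hf => ?_
  have h0 : Measurable (fun x : H n => f (-x)) := hf.comp measurable_neg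
  rw [Pool.Agent.H33.HQ.TR_tonelli _ h0, Pool.Agent.H33.HQ.TR_tonelli f hf]
  have h1 : ∀ a b : V n, ∫⁻ t : ℝ, f (-(a, b, t)) = ∫⁻ t : ℝ, f (-a, -b, t) := fun a b =>
    lintegral_neg_eq_self (μ := volume) (fun t : ℝ => f (-a, -b, t))
  have h2 : ∀ a : V n, ∫⁻ b : V n, ∫⁻ t : ℝ, f (-a, -b, t) =
      ∫⁻ b : V n, ∫⁻ t : ℝ, f (-a, b, t) := fun a =>
    lintegral_neg_eq_self (μ := volume) (fun b : V n => ∫⁻ t : ℝ, f (-a, b, t))
  simp only [h1, h2]
  exact lintegral_neg_eq_self (μ := volume) (fun a : V n => ∫⁻ b : V n, ∫⁻ t : ℝ, f (a, b, t))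

lemma mo_rn {n : ℕ} (z : H n) :
    MeasurePreserving (fun y : H n => mul (-y) z) (volume : Measure (H n)) volume :=
  (mo_right z).comp mo_neg

lemma mo_cont2 {n : ℕ} : Continuous (fun p : H n × H n => mul (-p.1) p.2) :=
  continuous_mul'.comp (continuous_fst.neg.prodMk continuous_snd)

/-! ### Jensen and Minkowski -/

lemma mo_jensen {α : Type} [MeasurableSpace α] (μ : Measure α) (a c : α → ℝ≥0∞)
    (ha : Measurable a) (hc : Measurable c) (q : ℝ) (hq : 1 ≤ q) :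
    (∫⁻ y, a y * c y ∂μ) ^ q ≤ (∫⁻ y, a y ∂μ) ^ (q - 1) * ∫⁻ y, a y * c y ^ q ∂μ := by
  rcases hq.eq_or_lt with rfl | hq1
  · simp
  have hq0 : 0 < q := by linarith
  set p : ℝ := Real.conjExponent q with hp
  have hpq : q.HolderConjugate p := Real.HolderConjugate.conjExponent hq1
  have hp0 : 0 < p := hpq.symm.pos
  have h1 : ∀ y, a y * c y = (a y ^ (1 / p)) * (a y ^ (1 / q) * c y) := by
    intro y
    rw [← mul_assoc, ← ENNReal.rpow_add_of_nonneg _ _ (by positivity) (by positivity)]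
    have : 1 / p + 1 / q = 1 := by
      have := hpq.inv_add_inv_eq_one
      simp only [one_div]
      linarith
    rw [this, ENNReal.rpow_one]
  have h2 := ENNReal.lintegral_mul_le_Lp_mul_Lq μ hpq.symm
    (f := fun y => a y ^ (1 / p)) (g := fun y => a y ^ (1 / q) * c y)
    (ha.pow_const _).aemeasurable ((ha.pow_const _).mul hc).aemeasurable
  have h3 : (∫⁻ y, a y * c y ∂μ) =
      ∫⁻ y, ((fun y => a y ^ (1 / p)) * (fun y => a y ^ (1 / q) * c y)) y ∂μ := by
    refine lintegral_congr fun y => ?_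
    rw [h1 y]
    rfl
  rw [h3]
  refine (ENNReal.rpow_le_rpow h2 hq0.le).trans ?_
  rw [ENNReal.mul_rpow_of_nonneg _ _ hq0.le, ← ENNReal.rpow_mul, ← ENNReal.rpow_mul]
  have e1 : 1 / p * q = q - 1 := by
    have := hpq.inv_add_inv_eq_one
    have h5 : p⁻¹ = 1 - q⁻¹ := by linarith
    rw [one_div, h5]
    field_simp
  have e2 : 1 / q * q = 1 := by field_simp
  rw [e1, e2, ENNReal.rpow_one]
  refine mul_le_mul' (le_of_eq ?_) (le_of_eq ?_)
  · congr 1
    refine lintegral_congr fun y => ?_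
    rw [← ENNReal.rpow_mul]
    have : 1 / p * p = 1 := by field_simp
    rw [this, ENNReal.rpow_one]
  · refine lintegral_congr fun y => ?_
    rw [ENNReal.mul_rpow_of_nonneg _ _ hq0.le, ← ENNReal.rpow_mul, e2, ENNReal.rpow_one]

lemma mo_core {n : ℕ} (a : H n → ℝ≥0∞) (ha : Measurable a) (b : H n → H n → ℝ≥0∞)
    (hb : Measurable (fun p : H n × H n => b p.1 p.2)) (q : ℝ) (hq : 1 ≤ q) :
    ∫⁻ z, (∫⁻ y, a y * b y z) ^ q ≤
      (∫⁻ y, a y) ^ (q - 1) * ∫⁻ y, a y * ∫⁻ z, b y z ^ q := by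
  have hb1 : ∀ z, Measurable (fun y => b y z) := fun z => hb.comp measurable_prodMk_right
  have hb2 : ∀ y, Measurable (fun z => b y z) := fun y => hb.comp measurable_prodMk_left
  have hm : Measurable (fun p : H n × H n => a p.1 * b p.1 p.2 ^ q) :=
    (ha.comp measurable_fst).mul (hb.pow_const _)
  calc ∫⁻ z, (∫⁻ y, a y * b y z) ^ q
      ≤ ∫⁻ z, (∫⁻ y, a y) ^ (q - 1) * ∫⁻ y, a y * b y z ^ q :=
        lintegral_mono fun z => mo_jensen volume a (fun y => b y z) ha (hb1 z) q hq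
    _ = (∫⁻ y, a y) ^ (q - 1) * ∫⁻ z, ∫⁻ y, a y * b y z ^ q :=
        lintegral_const_mul _ (hm.lintegral_prod_left')
    _ = (∫⁻ y, a y) ^ (q - 1) * ∫⁻ y, ∫⁻ z, a y * b y z ^ q := by
        congr 1
        exact (lintegral_lintegral_swap (f := fun y z => a y * b y z ^ q) hm.aemeasurable).symm
    _ = (∫⁻ y, a y) ^ (q - 1) * ∫⁻ y, a y * ∫⁻ z, b y z ^ q := by
        congr 1
        refine lintegral_congr fun y => ?_
        exact lintegral_const_mul _ ((hb2 y).pow_const _)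

/-! ### mollifications -/

section
variable {n : ℕ} {E : Type} [NormedAddCommGroup E] [NormedSpace ℝ E]

lemma mo_congr (η : H n → ℝ) (f g : H n → E) (h : f =ᵐ[volume] g) : mol η f = mol η g := by
  funext z
  refine integral_congr_ae ?_
  filter_upwards [(mo_rn z).quasiMeasurePreserving.ae_eq_comp h] with y hy
  have h1 : f (mul (-y) z) = g (mul (-y) z) := hy
  rw [h1]

lemma mo_meas (η : H n → ℝ) (hη : Continuous η) (g : H n → E) (hg : StronglyMeasurable g) :
    StronglyMeasurable (mol η g) := by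
  have h1 : StronglyMeasurable (fun p : H n × H n => η p.2 • g (mul (-p.2) p.1)) := by
    refine StronglyMeasurable.smul (hη.comp continuous_snd).stronglyMeasurable ?_
    exact hg.comp_measurable (mo_cont2.comp continuous_swap).measurable
  exact h1.integral_prod_right'

lemma mo_enorm (η : H n → ℝ) (g : H n → E) (z : H n) :
    ‖mol η g z‖ₑ ≤ ∫⁻ y, ‖η y‖ₑ * ‖g (mul (-y) z)‖ₑ := by
  refine (enorm_integral_le_lintegral_enorm _).trans (le_of_eq ?_)
  refine lintegral_congr fun y => ?_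
  rw [enorm_smul]

lemma mo_int (η : H n → ℝ) (hη : Continuous η) (hc : HasCompactSupport η) (g : H n → E)
    (q : ℝ) (hq : 1 ≤ q) (hg : MemLp g (ENNReal.ofReal q)) (z : H n) :
    Integrable (fun y => η y • g (mul (-y) z)) := by
  have h1 : MemLp (fun y => g (mul (-y) z)) (ENNReal.ofReal q) :=
    hg.comp_measurePreserving (mo_rn z)
  have h2 : (1 : ℝ≥0∞) ≤ ENNReal.ofReal q := ENNReal.one_le_ofReal.2 hq
  exact (h1.locallyIntegrable h2).integrable_smul_left_of_hasCompactSupport hη hc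

lemma mo_diff [CompleteSpace E] (η : H n → ℝ) (hη : Continuous η) (hc : HasCompactSupport η)
    (g : H n → E) (q : ℝ) (hq : 1 ≤ q) (hg : MemLp g (ENNReal.ofReal q)) (h1 : ∫ z, η z = 1)
    (z : H n) :
    ‖mol η g z - g z‖ₑ ≤ ∫⁻ y, ‖η y‖ₑ * ‖g (mul (-y) z) - g z‖ₑ := by
  have hi := mo_int η hη hc g q hq hg z
  have hj : Integrable (fun y => η y • g z) :=
    (hη.integrable_of_hasCompactSupport hc).smul_const (g z)
  have h2 : mol η g z - g z = ∫ y, η y • (g (mul (-y) z) - g z) := by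
    have h3 : g z = ∫ y, η y • g z := by rw [integral_smul_const, h1, one_smul]
    have h4 : ∫ y, η y • (g (mul (-y) z) - g z) =
        (∫ y, η y • g (mul (-y) z)) - ∫ y, η y • g z := by
      rw [← integral_sub hi hj]
      refine integral_congr_ae (Eventually.of_forall fun y => ?_)
      simp only [smul_sub]
    rw [h4, ← h3]
    rfl
  rw [h2]
  refine (enorm_integral_le_lintegral_enorm _).trans (le_of_eq ?_)
  refine lintegral_congr fun y => ?_
  rw [enorm_smul]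

lemma mo_memLp (η : H n → ℝ) (hη : Continuous η) (hc : HasCompactSupport η)
    (g : H n → E) (hg0 : StronglyMeasurable g) (q : ℝ) (hq : 1 ≤ q)
    (hg : MemLp g (ENNReal.ofReal q)) : MemLp (mol η g) (ENNReal.ofReal q) := by
  have hq0 : 0 < q := by linarith
  have hne : ENNReal.ofReal q ≠ 0 := (ENNReal.ofReal_pos.2 hq0).ne'
  refine ⟨(mo_meas η hη g hg0).aestronglyMeasurable, ?_⟩
  rw [eLpNorm_lt_top_iff_lintegral_rpow_enorm_lt_top hne ENNReal.ofReal_ne_top,
    ENNReal.toReal_ofReal hq0.le]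
  have hfin : ∫⁻ z, ‖g z‖ₑ ^ q < ⊤ := by
    have := (eLpNorm_lt_top_iff_lintegral_rpow_enorm_lt_top hne ENNReal.ofReal_ne_top).1 hg.2
    rwa [ENNReal.toReal_ofReal hq0.le] at this
  have hb : Measurable (fun p : H n × H n => ‖g (mul (-p.1) p.2)‖ₑ) :=
    (hg0.comp_measurable mo_cont2.measurable).enorm
  have h1 : ∫⁻ z, ‖mol η g z‖ₑ ^ q ≤
      (∫⁻ y, ‖η y‖ₑ) ^ (q - 1) * ∫⁻ y, ‖η y‖ₑ * ∫⁻ z, ‖g (mul (-y) z)‖ₑ ^ q :=
    (lintegral_mono fun z => ENNReal.rpow_le_rpow (mo_enorm η g z) hq0.le).trans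
      (mo_core (fun y => ‖η y‖ₑ) hη.measurable.enorm (fun y z => ‖g (mul (-y) z)‖ₑ) hb q hq)
  refine h1.trans_lt ?_
  have h2 : ∀ y : H n, ∫⁻ z, ‖g (mul (-y) z)‖ₑ ^ q = ∫⁻ z, ‖g z‖ₑ ^ q := fun y =>
    (Pool.Agent.H33.HQ.pf_TR n (fun z => ‖g z‖ₑ ^ q) (-y) (hg0.enorm.pow_const _)).1
  have h3 : ∫⁻ y, ‖η y‖ₑ < ⊤ := (hη.integrable_of_hasCompactSupport hc).2
  simp only [h2]
  rw [lintegral_mul_const _ hη.measurable.enorm]
  exact ENNReal.mul_lt_top (ENNReal.rpow_lt_top_of_nonneg (by linarith) h3.ne)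
    (ENNReal.mul_lt_top h3 hfin)

end

/-! ### continuity of translations -/

lemma mo_small {n : ℕ} (r : ℝ) (hr : 0 < r) :
    ∃ δ : ℝ, 0 < δ ∧ ∀ y : H n, N y < δ → ‖y‖ < r := by
  refine ⟨min r 1, lt_min hr one_pos, fun y hy => ?_⟩
  have h1 : N y < r := lt_of_lt_of_le hy (min_le_left _ _)
  have h2 : N y < 1 := lt_of_lt_of_le hy (min_le_right _ _)
  have h0 := N_nonneg y
  have h3 := mz_le_N y
  have h4 := mz_sq y
  have h5 := mz_nonneg y
  have h6 : ‖y.1‖ ≤ mz y := by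
    refine abs_le_of_sq_le_sq' (a := ‖y.1‖) ?_ h5 |>.2
    rw [h4]
    unfold Pool.Agent.H93.HQ.sq
    nlinarith [sq_nonneg ‖y.2.1‖]
  have h7 : ‖y.2.1‖ ≤ mz y := by
    refine abs_le_of_sq_le_sq' (a := ‖y.2.1‖) ?_ h5 |>.2
    rw [h4]
    unfold Pool.Agent.H93.HQ.sq
    nlinarith [sq_nonneg ‖y.1‖]
  have h8 : ‖y.2.2‖ ≤ N y ^ 2 := by
    rw [Real.norm_eq_abs]
    refine abs_le_of_sq_le_sq ?_ (by positivity)
    have := N_pow_four' y
    nlinarith [sq_nonneg (Pool.Agent.H93.HQ.sq y)]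
  have h9 : N y ^ 2 ≤ N y := by nlinarith
  rw [Prod.norm_def, Prod.norm_def]
  exact max_lt (by linarith) (max_lt (by linarith) (by linarith))

lemma mo_trans {n : ℕ} {E : Type} [NormedAddCommGroup E] [NormedSpace ℝ E]
    (g : H n → E) (q : ℝ) (hq : 1 ≤ q)
    (hg : MemLp g (ENNReal.ofReal q)) (ε : ℝ) (hε : 0 < ε) :
    ∃ δ : ℝ, 0 < δ ∧ ∀ y : H n, N y < δ →
      ∫⁻ z, ‖g (mul (-y) z) - g z‖ₑ ^ q ≤ ENNReal.ofReal ε := by
  have hq0 : 0 < q := by linarith
  have hne : ENNReal.ofReal q ≠ 0 := (ENNReal.ofReal_pos.2 hq0).ne'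
  have : Fact (1 ≤ ENNReal.ofReal q) := ⟨ENNReal.one_le_ofReal.2 hq⟩
  let F : C(H n × H n, H n) := ⟨fun p => mul (-p.1) p.2, mo_cont2⟩
  let G : C(H n, C(H n, H n)) := F.curry
  have hG : ∀ y : H n, MeasurePreserving (G y) volume volume := fun y => mo_left (-y)
  let L : Lp E (ENNReal.ofReal q) (volume : Measure (H n)) := hg.toLp g
  have ht : Tendsto (fun y : H n => Lp.compMeasurePreserving (G y) (hG y) L) (𝓝 0)
      (𝓝 (Lp.compMeasurePreserving (G 0) (hG 0) L)) :=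
    Filter.Tendsto.compMeasurePreservingLp tendsto_const_nhds (G.continuous.tendsto 0) hG (hG 0)
      ENNReal.ofReal_ne_top
  have hpos : 0 < ε ^ (1 / q) := Real.rpow_pos_of_pos hε _
  obtain ⟨r, hr, hrr⟩ := Metric.tendsto_nhds_nhds.1 ht (ε ^ (1 / q)) hpos
  obtain ⟨δ, hδ, hδr⟩ := mo_small (n := n) r hr
  refine ⟨δ, hδ, fun y hy => ?_⟩
  have h1 := hrr (x := y) (by rw [dist_zero_right]; exact hδr y hy)
  have hL : ∀ y : H n, Lp.compMeasurePreserving (G y) (hG y) L =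
      (hg.comp_measurePreserving (hG y)).toLp (g ∘ G y) := fun y =>
    Lp.toLp_compMeasurePreserving hg (hG y)
  rw [hL, hL, dist_eq_norm, ← MemLp.toLp_sub, Lp.norm_toLp] at h1
  have h2 : eLpNorm (g ∘ G y - g ∘ G 0) (ENNReal.ofReal q) volume ≤
      ENNReal.ofReal (ε ^ (1 / q)) := by
    have h3 : eLpNorm (g ∘ G y - g ∘ G 0) (ENNReal.ofReal q) volume ≠ ⊤ :=
      ((hg.comp_measurePreserving (hG y)).sub (hg.comp_measurePreserving (hG 0))).2.ne
    rw [← ENNReal.ofReal_toReal h3]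
    exact ENNReal.ofReal_le_ofReal h1.le
  rw [eLpNorm_eq_lintegral_rpow_enorm_toReal hne ENNReal.ofReal_ne_top,
    ENNReal.toReal_ofReal hq0.le] at h2
  have h4 := ENNReal.rpow_le_rpow h2 hq0.le
  rw [← ENNReal.rpow_mul] at h4
  have e2 : 1 / q * q = 1 := by field_simp
  rw [e2, ENNReal.rpow_one, ENNReal.ofReal_rpow_of_nonneg hpos.le hq0.le,
    ← Real.rpow_mul hε.le, e2, Real.rpow_one] at h4
  refine le_trans (le_of_eq ?_) h4
  refine lintegral_congr fun z => ?_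
  have h5 : (g ∘ G y - g ∘ G 0) z = g (mul (-y) z) - g z := by
    have h6 : G 0 z = z := by
      change mul (-0) z = z
      rw [neg_zero, zero_mul']
    change g (G y z) - g (G 0 z) = _
    rw [h6]
    rfl
  rw [h5]

/-- MO3: convergence of mollifications. -/
theorem pf_MO3 : T_MO3 := by
  intro n E _ _ _ q f hq hf
  have hq0 : 0 < q := by linarith
  obtain ⟨g, hg0, hfg⟩ := hf.1
  have hg : MemLp g (ENNReal.ofReal q) := (memLp_congr_ae hfg).1 hf
  constructor
  · intro η hη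
    rw [mo_congr η f g hfg]
    exact mo_memLp η hη.1.continuous hη.2 g hg0 q hq hg
  intro ε hε
  obtain ⟨δ, hδ, hK⟩ := mo_trans g q hq hg ε hε
  refine ⟨δ, hδ, fun η hη hpos hint hsupp => ?_⟩
  have hηc := hη.1.continuous
  have h1 : ∫ z, ‖mol η f z - f z‖ ^ q = ∫ z, ‖mol η g z - g z‖ ^ q := by
    rw [mo_congr η f g hfg]
    refine integral_congr_ae ?_
    filter_upwards [hfg] with z hz
    rw [hz]
  have hmeas : StronglyMeasurable (fun z => ‖mol η g z - g z‖) :=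
    ((mo_meas η hηc g hg0).sub hg0).norm
  have hmq : AEStronglyMeasurable (fun z => ‖mol η g z - g z‖ ^ q)
      (volume : Measure (H n)) :=
    (hmeas.measurable.pow_const q).aestronglyMeasurable
  rw [h1, integral_eq_lintegral_of_nonneg_ae
    (Eventually.of_forall fun z => Real.rpow_nonneg (norm_nonneg _) _) hmq]
  refine ENNReal.toReal_le_of_le_ofReal hε.le ?_
  have h2 : ∀ z, ENNReal.ofReal (‖mol η g z - g z‖ ^ q) = ‖mol η g z - g z‖ₑ ^ q := by
    intro z
    rw [← ENNReal.ofReal_rpow_of_nonneg (norm_nonneg _) hq0.le, ofReal_norm]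
  simp only [h2]
  have hint1 : ∫⁻ y, ‖η y‖ₑ = 1 := by
    have h3 : ∀ y, ‖η y‖ₑ = ENNReal.ofReal (η y) := fun y => by
      rw [← ofReal_norm, Real.norm_of_nonneg (hpos y)]
    simp only [h3]
    rw [← ofReal_integral_eq_lintegral_ofReal (hηc.integrable_of_hasCompactSupport hη.2)
      (Eventually.of_forall hpos), hint, ENNReal.ofReal_one]
  have hb : Measurable (fun p : H n × H n => ‖g (mul (-p.1) p.2) - g p.2‖ₑ) :=
    ((hg0.comp_measurable mo_cont2.measurable).sub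
      (hg0.comp_measurable measurable_snd)).enorm
  have h4 : ∫⁻ z, ‖mol η g z - g z‖ₑ ^ q ≤
      (∫⁻ y, ‖η y‖ₑ) ^ (q - 1) *
        ∫⁻ y, ‖η y‖ₑ * ∫⁻ z, ‖g (mul (-y) z) - g z‖ₑ ^ q :=
    (lintegral_mono fun z => ENNReal.rpow_le_rpow
      (mo_diff η hηc hη.2 g q hq hg hint z) hq0.le).trans
      (mo_core (fun y => ‖η y‖ₑ) hηc.measurable.enorm
        (fun y z => ‖g (mul (-y) z) - g z‖ₑ) hb q hq)
  refine h4.trans ?_
  rw [hint1, ENNReal.one_rpow, one_mul]
  have h5 : ∀ y, ‖η y‖ₑ * ∫⁻ z, ‖g (mul (-y) z) - g z‖ₑ ^ q ≤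
      ‖η y‖ₑ * ENNReal.ofReal ε := by
    intro y
    by_cases hy : N y < δ
    · exact mul_le_mul_right (hK y hy) _
    · rw [hsupp y (not_lt.1 hy)]
      simp
  refine (lintegral_mono h5).trans ?_
  rw [lintegral_mul_const _ hηc.measurable.enorm, hint1, one_mul]

end Pool.Agent.H10.HB
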